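import Pool.Agent.R811.Cross.Closed

/-!
# The Jones polynomials of the diagrams with a given shadow

Diagrams (starting library `Pool.Agent.H891R2.Jones.Diagram`): `Diagram P` (oriented link diagrams with marked
points `P`), `Diagram.IsClosed` (the pieces fit together to closed oriented curves), `Diagram.fPoly` (the
normalised bracket `(-A^{-3})^{w(D)} ⟨D⟩`, a Laurent polynomial in `A = T 1`).
`Pool.Agent.TH561.PK.Defs` (starting library): `IsKnot D` (all marked points are on one curve).
`Pool.Agent.H832R3.VJ.Defs` (starting library): `positive x`, `negative x` (the positive and the negative one of the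
crossing `x` and the crossing `x` with over- and under-strand exchanged).

`Pool.Agent.R811.Cross.Defs`:

* `Shadow n`: the shadow of an oriented knot diagram with `n` crossings (a Gauss code): the `2 n` edges of the curve are
  numbered in the order in which one runs through them, `next e` is the edge after `e`; the double point `i` is
  passed between the edges `p i` and `next (p i)` and between the edges `q i` and `next (q i)`, every edge is one of
  the edges `p i`, `q i`; `left i` says whether the second strand crosses the first one from the right to the left
  or from the left to the right.  Every oriented knot diagram with `n ≥ 1` crossings in the plane has a shadow of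
  this form (planarity is not needed in the theorem, it holds for virtual diagrams, too);
* `G.diagram s`: the diagram with the shadow `G` in which the crossing `i` is positive for `s i = true` and
  negative for `s i = false`.  So the `2 ^ n` diagrams `G.diagram s` are the diagrams which are obtained from one of
  them by changing some of the crossings;
* `G.Interlaced i j`: running through the curve one meets `j` exactly once between the two passages through `i`
  (the chords `i` and `j` of the Gauss diagram intersect).  In a plane diagram the crossings which are not
  interlaced with any other one are the nugatory crossings.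

`Pool.Agent.R811.Cross.Bigon`: `G.Antiparallel i j`: there is an edge from `i` to `j`, and on the two other strands at
`i` and `j` an edge from `j` to `i` (for instance, `i` and `j` are the vertices of a bigon whose sides are directed
oppositely: an antiparallel clasp or twist region).

Proof.  (1) If `i` and `j` are interlaced and the four diagrams which differ at `i` and `j` only have the same
`f` modulo `2`, then by the skein relation `f_{00} ≡ f (A² + A^{-2})²` for the diagram with both crossings smoothed,
which is a knot diagram.  At `A = 1` this is a contradiction, because `f_{00}(1)` is odd: the `2`-colourings of the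
marked points show that the bracket of a knot diagram has norm `1` at `A = i`.  (2) The second moment of `f`
(the second derivative at `A = 1`) is a function on the cube `{±1}^n` whose third differences vanish and whose second
differences in the directions of interlaced pairs are `≡ 32` modulo `64`.  The level sets of such a
function are estimated by the total influence of quadratic threshold functions, which is at most
`√2 m^{3/4}` for `m` variables.  (3) Take a maximal set of `ν` disjoint interlaced pairs; the other chords do not
intersect each other, and a noncrossing family of chords without parallel chords has at most `8 ν` elements.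
-/

set_option autoImplicit false

namespace Pool.Agent.Results.MP_42db45_gt.AllShadows

open Finset LaurentPolynomial Pool.Agent.H891R2.Jones Pool.Agent.R811.Cross

open Classical in
/-- Let `G` be the shadow of an oriented knot diagram with `n` crossings.  The `2 ^ n` diagrams `G.diagram s` with
this shadow are closed oriented diagrams of knots, and for every Laurent polynomial `g`, for instance for `g = 1`:

* If two double points of `G` are interlaced, then at most three quarters of the `2 ^ n` diagrams have an
  `f`-polynomial congruent to `g` modulo `2`.  So for at least one quarter of the diagrams `f ≠ 1`.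
* If there are `ν` pairwise disjoint pairs of interlaced double points, then the proportion of the diagrams whose
  `f`-polynomial is equal to `g`, or only agrees with `g` up to terms of order `3` at `A = 1`, is at most
  `(162 / ν) ^ (1/4)`.
* If every double point is interlaced with another one and no two double points `i ≠ j` are the vertices of
  an antiparallel bigon, then this proportion is at most `(1620 / n) ^ (1/4)`. -/
theorem result (n : ℕ) (G : Shadow n) :
    (∀ s, (G.diagram s).IsClosed ∧ Pool.Agent.TH561.PK.IsKnot (G.diagram s)) ∧
    ∀ g : ℤ[T;T⁻¹],
      ((∃ i j, G.Interlaced i j) →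
        4 * #{s : Fin n → Bool | (2 : ℤ[T;T⁻¹]) ∣ (G.diagram s).fPoly - g} ≤ 3 * 2 ^ n) ∧
      (∀ (ν : ℕ) (u w : Fin ν → Fin n), Function.Injective (Sum.elim u w) →
        (∀ k, G.Interlaced (u k) (w k)) →
        ν * #{s : Fin n → Bool | (T 1 - 1 : ℤ[T;T⁻¹]) ^ 3 ∣ (G.diagram s).fPoly - g} ^ 4 ≤ 162 * 16 ^ n ∧
        ν * #{s : Fin n → Bool | (G.diagram s).fPoly = g} ^ 4 ≤ 162 * 16 ^ n) ∧
      ((∀ i, ∃ j, G.Interlaced i j) → (∀ i j, i ≠ j → ¬ G.Antiparallel i j) →
        n * #{s : Fin n → Bool | (T 1 - 1 : ℤ[T;T⁻¹]) ^ 3 ∣ (G.diagram s).fPoly - g} ^ 4 ≤ 1620 * 16 ^ n ∧
        n * #{s : Fin n → Bool | (G.diagram s).fPoly = g} ^ 4 ≤ 1620 * 16 ^ n) := by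
  refine ⟨fun s => ⟨by convert isClosed G s, isKnot G s⟩, fun g => ⟨?_, ?_, ?_⟩⟩
  · rintro ⟨i, j, hij⟩
    exact quarter G hij g
  · intro ν u w h1 h2
    have h := anti G u w h1 h2 g
    refine ⟨h, ?_⟩
    refine (Nat.mul_le_mul_left ν (Nat.pow_le_pow_left (Finset.card_le_card ?_) 4)).trans h
    intro s hs
    rw [Finset.mem_filter] at hs ⊢
    exact ⟨hs.1, by rw [hs.2, sub_self]; exact dvd_zero _⟩
  · intro h1 h2
    obtain ⟨ν, u, w, h3, h4, h5⟩ := matching G h1 h2
    have h := anti G u w h3 h4 g
    have key : n * #{s : Fin n → Bool | (T 1 - 1 : ℤ[T;T⁻¹]) ^ 3 ∣ (G.diagram s).fPoly - g} ^ 4 ≤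
        1620 * 16 ^ n := by
      calc n * #{s : Fin n → Bool | (T 1 - 1 : ℤ[T;T⁻¹]) ^ 3 ∣ (G.diagram s).fPoly - g} ^ 4
          ≤ (10 * ν) * #{s : Fin n → Bool | (T 1 - 1 : ℤ[T;T⁻¹]) ^ 3 ∣ (G.diagram s).fPoly - g} ^ 4 :=
            Nat.mul_le_mul_right _ h5
        _ = 10 * (ν * #{s : Fin n → Bool | (T 1 - 1 : ℤ[T;T⁻¹]) ^ 3 ∣ (G.diagram s).fPoly - g} ^ 4) := by
            ring
        _ ≤ 10 * (162 * 16 ^ n) := Nat.mul_le_mul_left _ h
        _ = 1620 * 16 ^ n := by ring
    refine ⟨key, ?_⟩
    refine (Nat.mul_le_mul_left n (Nat.pow_le_pow_left (Finset.card_le_card ?_) 4)).trans key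
    intro s hs
    rw [Finset.mem_filter] at hs ⊢
    exact ⟨hs.1, by rw [hs.2, sub_self]; exact dvd_zero _⟩

end Pool.Agent.Results.MP_42db45_gt.AllShadows
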