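import Pool.Agent.R811.Abc.Small

/-!
# Rings of tangles of bounded size: finiteness, by the abc theorem for polynomials

Definitions (`Pool.Agent.R811.Abc.Defs`, `Pool.Agent.R811.Abc.Final`, `Pool.Agent.R811.Abc.Bdd`,
`Pool.Agent.R811.Abc.Small`; starting library `Pool.Agent.H891R2.RF.Defs`, `Pool.Agent.H891R2.MT.Defs`,
`Pool.Agent.H891R2.Jones.Diagram`):

* `Outer4`: marked points, arcs, crossings and four corners (`corner t r`, `t` top, `r` right). It is used
  for tangles with four ends and for the part of a diagram outside of a box; `size`: the number of
  crossings plus the number of marked points (a tangle diagram with `n` crossings and without closed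
  circles has `4 n + 4` marked points: the ends of the crossings and the corners);
* `IsTangle T`: in every state of `T` two different curves join the four corners in pairs, both
  horizontally or both vertically, never diagonally (every tangle diagram drawn in a rectangle has this
  property);
* `ring W l`: the diagram obtained from the outside `W` by filling its box with the tangles of the list
  `l`, side by side; `plain`: the outside which consists of two horizontal strands, so that
  `ring plain l` is the ring `T₁ + T₂ + ⋯ + Tₙ` (numerator closure of the sum) of the tangles;
* `Orients D U`: the oriented diagram `D` is `U` with some directions; `D.fPoly`: the normalised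
  Kauffman bracket; `IsU f`: `f = ± A^m`, for instance `f = 1`;
* `JonesRow q T`: `T` behaves like a row of `q` crossings: up to one unit `± A^m` the bracket of every
  diagram which contains `T` is not changed if `T` is replaced by `|q|` crossings in a row, of the kind
  given by the sign of `q`; `IsRow T`: there is such a `q`;
* `JonesCut T`: the same with two vertical strands in place of a row;
* `brH W`, `brV W`: the brackets of `W` with two horizontal / vertical strands in the box,
  `dd = -A² - A⁻²`;
* `Exc W l`, the exceptional cases: `W` behaves like a vertical cut (`brV W = dd * brH W`, and `brH W` is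
  a unit) and the brackets of the vertical closures of all tangles of `l` are units; or
  `brV W` is a unit, one tangle of `l` behaves like two vertical strands and the brackets of the vertical
  closures of all others are units.

Proof: for `D = ring W l` one has `d ⟨D⟩ = ∏ x_i · X + ∏ α_i · Y`, where `x_i` and `α_i` are the
eigenvalues of `T_i` in the Temperley-Lieb algebra on two strands. There are only finitely many pairs
`(x_i, α_i)` for tangles of bounded size, the rows give the units. If `⟨D⟩ = ± A^m`, the Mason-Stothers
theorem bounds the number of all other tangles.
-/

set_option autoImplicit false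

namespace Pool.Agent.Results.MP_42db45_gt.BoundedTangles

open Pool.Agent.H891R2.Jones Pool.Agent.H891R2.MT Pool.Agent.H891R2.RF Pool.Agent.R811.Abc

open Classical in
/-- For every `s` there is a number `N` such that the following holds.

* Let `D` be a ring `T₁ + ⋯ + Tₙ` of arbitrarily many tangles, each of which behaves like a row of
  crossings or has size at most `s`. If `D` (with some directions) has the Jones polynomial `1` or `± A^m`,
  then at most `N` of the tangles do not behave like rows, and the total number `∑ q i` of the crossings of
  the rows has absolute value at most `N`; or one of the tangles behaves like two vertical strands and the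
  vertical closures of all others have trivial Jones polynomials up to a unit.
* The same holds if the box of an arbitrary outside `W` of size at most `s` is filled with the tangles,
  with the exceptional cases `Exc W l`. -/
theorem result (s : ℕ) : ∃ N : ℕ,
    (∀ l : List Outer4, (∀ T ∈ l, IsTangle T) → (∀ T ∈ l, IsRow T ∨ size T ≤ s) →
      ∀ D : Diagram (puts plain l).P, Orients D (ring plain l) → IsU D.fPoly →
        (l.countP (fun T => ¬ IsRow T) ≤ N ∧
          ∀ q : Outer4 → ℤ, (∀ T ∈ l, JonesRow (q T) T ∨ (¬ IsRow T ∧ q T = 0)) →
            |(l.map q).sum| ≤ N) ∨
        ∃ l₁ T₀ l₂, l = l₁ ++ T₀ :: l₂ ∧ JonesCut T₀ ∧ ∀ T ∈ l₁ ++ l₂, IsU (brV T)) ∧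
    ∀ (W : Outer4) (l : List Outer4), size W ≤ s →
      (∀ T ∈ l, IsTangle T) → (∀ T ∈ l, IsRow T ∨ size T ≤ s) →
      ∀ D : Diagram (puts W l).P, Orients D (ring W l) → IsU D.fPoly →
        (l.countP (fun T => ¬ IsRow T) ≤ N ∧
          ∀ q : Outer4 → ℤ, (∀ T ∈ l, JonesRow (q T) T ∨ (¬ IsRow T ∧ q T = 0)) →
            |(l.map q).sum| ≤ N) ∨ Exc W l := by
  obtain ⟨N, hN⟩ := small (s + 4)
  refine ⟨N, ?_, ?_⟩
  · intro l hT hl D hD hf
    haveI : Nonempty (puts plain l).P := ⟨(puts plain l).corner false false⟩
    have hp : size plain ≤ s + 4 := by
      have : size plain = 4 := rfl
      omega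
    rcases hN plain l hp hT (fun T h => (hl T h).imp_right fun h => by omega)
      (IsU.bracket D _ hD hf) with h | h
    · exact Or.inl h
    · right
      rcases h with ⟨h1, _⟩ | ⟨_, h1⟩
      · exfalso
        have := congrArg ez h1
        rw [brV_plain, map_one, map_mul, ez_dd, zero_mul] at this
        exact one_ne_zero this
      · exact h1
  · intro W l hW hT hl D hD hf
    haveI : Nonempty (puts W l).P := ⟨(puts W l).corner false false⟩
    exact hN W l (by omega) hT (fun T h => (hl T h).imp_right fun h => by omega)
      (IsU.bracket D _ hD hf)

end Pool.Agent.Results.MP_42db45_gt.BoundedTangles
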