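import Pool.Agent.R811.Cross.OneSide

/-!
# States which are dominated on one side, and diagrams with few negative crossings

From the starting library (`Pool.Agent.H891R2.Jones.Diagram`, `Pool.Agent.H891R2.MT.Defs`,
`Pool.Agent.H891R2.DS.Defs`, `Pool.Agent.H891R2.DS.Final`):

* `Ribbon k`: ribbon graphs with `k` edges; `Ribbon.Planar`: connected and planar; `Γ.link (sg R)`: the
  unoriented link diagram with Tait graph `Γ` and one crossing at every edge, of the kind `-1` for the edges in `R`
  and `1` for the others (every connected link diagram with at least one crossing is of this form);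
  `Orients D U`: `D` is the unoriented diagram `U` with directions; `D.fPoly`: its normalised Kauffman
  bracket, a Laurent polynomial in `A` (so `V(t)`, `t = A^{-4}`);
* a state is a set `S` of edges (the bands of `Γ` which are kept in the smoothing); `Asm R S`: the set of the
  crossings which have the `A`-smoothing in the state `S`, its complement: those with the `B`-smoothing;
  `stateGraph Γ S`: the state graph; its vertices are the circles of `S`, and every crossing is an edge
  between the circles which it touches;
* `Dom G M`: every nonempty even subgraph (hence: every cycle) of `G` has at least two more edges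
  outside `M` than in `M`;
* `Nugatory Γ e`: the crossing `e` is nugatory (a bridge of the Tait graph or of its dual).

`Pool.Agent.R811.Cross.OneSide`:

* `IsPositiveSet D P`: `P` is the set of the positive crossings of `D`;
* `betti Γ S`: the number of crossings minus the number of circles of the state `S` plus one, i.e. the number of
  independent cycles of the (connected) state graph.

If `Asm R S = P`, i.e. if the state `S` has the `A`-smoothing exactly at the positive crossings, then `S` is the
smoothing according to the directions, and its circles are the Seifert circles of `D`; the state graph is the Seifert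
graph, and `betti Γ S` is `1 - χ` for the surface of Seifert's algorithm (twice its genus for a knot).

The theorem of the starting library on dominated states needs two states, one for each end of the bracket.  Here
only one end is known, and it is compared with the writhe.
-/

set_option autoImplicit false

namespace Pool.Agent.Results.MP_42db45_gt.OneSidedStates

open Finset Pool.Agent.H891R2.Jones Pool.Agent.H891R2.MT Pool.Agent.H891R2.DS Pool.Agent.R811.OneSide

/-- Let `D` be a connected oriented link diagram with `k > 0` crossings, `P` the set of its positive crossings, and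
let `S` be a state with `m` `B`-smoothings and `m'` `A`-smoothings; `b` denotes the number of independent cycles of
its state graph, `n₋` and `n₊` the numbers of negative and positive crossings.

* If every cycle of the state graph has at least two more `A`-smoothed than `B`-smoothed crossings, then the largest
  exponent of the normalised bracket is `-2 b + 6 (n₋ - m)`, with coefficient `± 1`; so `f ≠ 1` if
  `b ≠ 3 (n₋ - m)`.
* If every cycle of the state graph has at least two more `B`-smoothed than `A`-smoothed crossings, then the smallest
  exponent is `2 b - 6 (n₊ - m')`, with coefficient `± 1`; so `f ≠ 1` if `b ≠ 3 (n₊ - m')`.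
* Let `S` be the Seifert state.  If every cycle of the Seifert graph has at least two more positive than negative
  crossings, then the largest exponent of `f` is `-2 b`, that is, the smallest exponent of the Jones polynomial `V(t)` is
  `b / 2` (the genus of the Seifert surface, if `D` is a knot diagram), with coefficient `± 1`; if some crossing is
  not nugatory, then `f ≠ 1`.  If every cycle has at least two more negative than positive crossings, then the
  smallest exponent of `f` is `2 b`, with coefficient `± 1`, and `f ≠ 1` if some crossing is not nugatory. -/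
theorem result {k : ℕ} (Γ : Ribbon k) (hΓ : Γ.Planar) (hk : 0 < k) (R S P : Finset (Fin k))
    (D : Diagram (Ribbon.Pt (sg R))) (hD : Orients D (Γ.link (sg R))) (hP : IsPositiveSet D P) :
    (Dom (stateGraph Γ S) (Asm R S)ᶜ →
      (∀ j, D.fPoly.coeff j ≠ 0 → j ≤ -2 * betti Γ S + 6 * ((Pᶜ.card : ℤ) - ((Asm R S)ᶜ).card)) ∧
      |D.fPoly.coeff (-2 * betti Γ S + 6 * ((Pᶜ.card : ℤ) - ((Asm R S)ᶜ).card))| = 1 ∧
      (betti Γ S ≠ 3 * ((Pᶜ.card : ℤ) - ((Asm R S)ᶜ).card) → D.fPoly ≠ 1)) ∧
    (Dom (stateGraph Γ S) (Asm R S) →
      (∀ j, D.fPoly.coeff j ≠ 0 → 2 * betti Γ S - 6 * ((P.card : ℤ) - (Asm R S).card) ≤ j) ∧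
      |D.fPoly.coeff (2 * betti Γ S - 6 * ((P.card : ℤ) - (Asm R S).card))| = 1 ∧
      (betti Γ S ≠ 3 * ((P.card : ℤ) - (Asm R S).card) → D.fPoly ≠ 1)) ∧
    (Asm R S = P →
      (Dom (stateGraph Γ S) Pᶜ →
        (∀ j, D.fPoly.coeff j ≠ 0 → j ≤ -2 * betti Γ S) ∧ |D.fPoly.coeff (-2 * betti Γ S)| = 1 ∧
        ((∃ e, ¬ Nugatory Γ e) → 0 < betti Γ S ∧ D.fPoly ≠ 1)) ∧
      (Dom (stateGraph Γ S) P →
        (∀ j, D.fPoly.coeff j ≠ 0 → 2 * betti Γ S ≤ j) ∧ |D.fPoly.coeff (2 * betti Γ S)| = 1 ∧
        ((∃ e, ¬ Nugatory Γ e) → 0 < betti Γ S ∧ D.fPoly ≠ 1))) := by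
  refine ⟨fun h => ?_, fun h => ?_, fun hS => ⟨fun h => ?_, fun h => ?_⟩⟩
  · obtain ⟨h1, h2⟩ := upper Γ hΓ hk R S P h D hD hP
    refine ⟨h1, h2, fun hne hf => hne ?_⟩
    have := coeff_one _ hf _ h2
    linarith
  · obtain ⟨h1, h2⟩ := lower Γ hΓ hk R S P h D hD hP
    refine ⟨h1, h2, fun hne hf => hne ?_⟩
    have := coeff_one _ hf _ h2
    linarith
  · obtain ⟨h1, h2⟩ := upper Γ hΓ hk R S P (by rw [hS]; exact h) D hD hP
    rw [hS] at h1 h2
    simp only [sub_self, mul_zero, add_zero] at h1 h2
    refine ⟨h1, h2, fun ⟨e, he⟩ => ?_⟩
    have hb := betti_pos Γ hΓ S e he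
    refine ⟨hb, fun hf => ?_⟩
    have := coeff_one _ hf _ h2
    linarith
  · obtain ⟨h1, h2⟩ := lower Γ hΓ hk R S P (by rw [hS]; exact h) D hD hP
    rw [hS] at h1 h2
    simp only [sub_self, mul_zero, sub_zero] at h1 h2
    refine ⟨h1, h2, fun ⟨e, he⟩ => ?_⟩
    have hb := betti_pos Γ hΓ S e he
    refine ⟨hb, fun hf => ?_⟩
    have := coeff_one _ hf _ h2
    linarith

end Pool.Agent.Results.MP_42db45_gt.OneSidedStates
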