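import Pool.Agent.R811.Abc.General

/-!
# Rings of repeated tangles: the abc theorem for polynomials and the Jones polynomial

Definitions (`Pool.Agent.R811.Abc.Defs`, `Pool.Agent.R811.Abc.Final`; starting library
`Pool.Agent.H891R2.RF.Defs`, `Pool.Agent.H891R2.MT.Defs`, `Pool.Agent.H891R2.Jones.Diagram`):

* `Outer4`: marked points, arcs, crossings and four corners (`corner t r`, `t` top, `r` right). It is used
  for tangles with four ends and for the part of a diagram outside of a box;
* `IsTangle T`: in every state of `T` two different curves join the four corners in pairs, both
  horizontally or both vertically, never diagonally (every tangle diagram drawn in a rectangle has this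
  property);
* `ring W l`: the diagram obtained from the outside `W` by filling its box with the tangles of the list
  `l`, side by side; `plain`: the outside which consists of two horizontal strands, so that
  `ring plain l` is the ring `T₁ + T₂ + ⋯ + Tₙ` (numerator closure of the sum) of the tangles;
* `Orients D U`: the oriented diagram `D` is `U` with some directions; `D.fPoly`: the normalised
  Kauffman bracket; `IsU f`: `f = ± A^m`, for instance `f = 1`;
* `JonesRow q T`: `T` behaves like a row of `q` crossings: up to one unit `± A^m` the bracket of every
  diagram which contains `T` is not changed if `T` is replaced by `|q|` crossings in a row, of the kind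
  given by the sign of `q`;
* `brH W`, `brV W`: the brackets of `W` with two horizontal / vertical strands in the box,
  `dd = -A² - A⁻²`.

Proof: for `D = ring W l` one has `d ⟨D⟩ = ∏ x_i · X + ∏ α_i · Y`, where `x_i` and `α_i` are the
brackets of the two ideal closures of the tangles (the eigenvalues of `T_i` in the Temperley-Lieb algebra
on two strands) and `X`, `Y` depend on `W`. If `⟨D⟩ = ± A^m` this is a relation between three polynomials
without common zeros apart from few exceptions, two of which are products of high powers; by the
Mason-Stothers theorem all `x_i`, `α_i` are monomials.
-/

set_option autoImplicit false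

namespace Pool.Agent.Results.MP_42db45_gt.RepeatedTangles

open Pool.Agent.H891R2.Jones Pool.Agent.H891R2.MT Pool.Agent.H891R2.RF Pool.Agent.R811.Abc

/-- Let `T 0, …, T (r-1)` be arbitrary tangles with four ends and let `c` be a word in the letters
`0, …, r-1` (the order of the tangles).

* If every tangle occurs at least `11` times in the ring `T_{c 1} + ⋯ + T_{c n}` and this link has
  (for some directions) the Jones polynomial `1` or `± A^m`, then every `T i` behaves like a row of `q i`
  crossings, and the total number of crossings `q (c 1) + ⋯ + q (c n)` is `1` or `-1`.
* Let `W` be an arbitrary outside with `C` crossings and `p` marked points. If every tangle occurs at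
  least `2 C + 4 p + 5` times in the box of `W` and the resulting link has the Jones polynomial `1` or
  `± A^m`, then every `T i` behaves like a row of crossings, or `W` behaves like a vertical cut: then
  `⟨W with vertical strands⟩ = d ⟨W with horizontal strands⟩`, the latter is a unit, and the closures of
  all `T i` by vertical strands have trivial Jones polynomials up to a unit. -/
theorem result (r : ℕ) (T : Fin r → Outer4) (hT : ∀ i, IsTangle (T i)) (c : List (Fin r)) :
    ((∀ i, 11 ≤ c.count i) →
      ∀ D : Diagram (puts plain (c.map T)).P, Orients D (ring plain (c.map T)) → IsU D.fPoly →
        ∃ q : Fin r → ℤ, (∀ i, JonesRow (q i) (T i)) ∧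
          ((c.map q).sum = 1 ∨ (c.map q).sum = -1)) ∧
    ∀ W : Outer4, (∀ i, 2 * W.crossings.length + 4 * Fintype.card W.P + 5 ≤ c.count i) →
      ∀ D : Diagram (puts W (c.map T)).P, Orients D (ring W (c.map T)) → IsU D.fPoly →
        (∃ q : Fin r → ℤ, ∀ i, JonesRow (q i) (T i)) ∨
          (brV W = dd * brH W ∧ IsU (brH W) ∧ ∀ i, IsU (brV (T i))) := by
  constructor
  · intro hc D hD hf
    haveI : Nonempty (puts plain (c.map T)).P := ⟨(puts plain (c.map T)).corner false false⟩
    exact plain_case T hT c hc (IsU.bracket D _ hD hf)
  · intro W hc D hD hf
    haveI : Nonempty (puts W (c.map T)).P := ⟨(puts W (c.map T)).corner false false⟩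
    exact general_case T hT W c hc (IsU.bracket D _ hD hf)

end Pool.Agent.Results.MP_42db45_gt.RepeatedTangles
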